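import Mathlib

/-!
# H49V: simplices and alternating forms

`sv ω x = |ω (x 1 - x 0, ..., x D - x 0)|`.
-/

set_option autoImplicit false

namespace Pool.Agent.Lib.H49V

open Finset

variable {E : Type*} [AddCommGroup E] [Module ℝ E]

/-- `|ω (x 1 - x 0, ..., x D - x 0)|`. -/
def sv {D : ℕ} (ω : E [⋀^Fin D]→ₗ[ℝ] ℝ) (x : Fin (D + 1) → E) : ℝ :=
  |ω fun i => x i.succ - x 0|

theorem sv_nonneg {D : ℕ} (ω : E [⋀^Fin D]→ₗ[ℝ] ℝ) (x : Fin (D + 1) → E) : 0 ≤ sv ω x :=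
  abs_nonneg _

/-- A form of top degree vanishes exactly on the dependent families. -/
theorem form_ne_zero {D : ℕ} [FiniteDimensional ℝ E] (hE : Module.finrank ℝ E = D)
    {ω : E [⋀^Fin D]→ₗ[ℝ] ℝ} (hω : ω ≠ 0) (v : Fin D → E) : ω v ≠ 0 ↔ LinearIndependent ℝ v := by
  constructor
  · intro h
    by_contra hl
    exact h (ω.map_linearDependent v hl)
  · intro h h0
    have hsp : ⊤ ≤ Submodule.span ℝ (Set.range v) :=
      (h.span_eq_top_of_card_eq_finrank' (by rw [hE, Fintype.card_fin])).ge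
    let b : Module.Basis (Fin D) ℝ E := Module.Basis.mk h hsp
    have hb : (b : Fin D → E) = v := Module.Basis.coe_mk h hsp
    apply hω
    rw [ω.eq_smul_basis_det b, hb, h0, zero_smul]

theorem sv_ne_zero {D : ℕ} [FiniteDimensional ℝ E] (hE : Module.finrank ℝ E = D)
    {ω : E [⋀^Fin D]→ₗ[ℝ] ℝ} (hω : ω ≠ 0) (x : Fin (D + 1) → E) :
    sv ω x ≠ 0 ↔ AffineIndependent ℝ x := by
  rw [sv, abs_ne_zero, form_ne_zero hE hω, affineIndependent_iff_linearIndependent_vsub ℝ x 0]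
  rw [← linearIndependent_equiv (finSuccAboveEquiv (0 : Fin (D + 1)))]
  rfl

end Pool.Agent.Lib.H49V
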