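import Pool.Agent.Lib.H49V.Strip

/-!
# H49V: one block

`Claim D C`: the inequality in dimension `D` with constant `C`.
-/

set_option autoImplicit false
set_option linter.unusedSectionVars false

namespace Pool.Agent.Lib.H49V

open Finset

/-- The inequality in dimension `D` with constant `C`. -/
def Claim (D : ℕ) (C : ℝ) : Prop :=
  ∀ (E : Type) [AddCommGroup E] [Module ℝ E] [FiniteDimensional ℝ E],
    Module.finrank ℝ E = D → ∀ (ω : E [⋀^Fin D]→ₗ[ℝ] ℝ), ω ≠ 0 →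
    ∀ (S : Finset E) (a M : ℝ), 0 ≤ a →
    (∀ x : Fin (D + 1) → E, (∀ i, x i ∈ S) → sv ω x = 0 ∨ a ≤ sv ω x) →
    (∀ x : Fin (D + 1) → E, (∀ i, x i ∈ S) → sv ω x ≤ M) →
    (∃ x : Fin (D + 1) → E, (∀ i, x i ∈ S) ∧ sv ω x ≠ 0) → (S.card : ℝ) * a ≤ C * M

section

variable {E : Type} [AddCommGroup E] [Module ℝ E]

/-- The simplex with vertices `y 0`, `u`, `y 1`, ..., `y D`. -/
def ext {D : ℕ} (u : E) (y : Fin (D + 1) → E) : Fin (D + 1 + 1) → E :=
  Fin.cons (y 0) (Fin.cons u fun i : Fin D => y i.succ)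

theorem ext_mem {D : ℕ} {u : E} {y : Fin (D + 1) → E} {T : Finset E} (hu : u ∈ T)
    (hy : ∀ i, y i ∈ T) : ∀ i, ext u y i ∈ T := by
  intro i
  refine Fin.cases ?_ (fun j => ?_) i
  · exact hy 0
  · refine Fin.cases ?_ (fun k => ?_) j
    · exact hu
    · exact hy k.succ

theorem sv_ext {D : ℕ} (ω : E [⋀^Fin (D + 1)]→ₗ[ℝ] ℝ) (u : E) (y : Fin (D + 1) → E) :
    sv ω (ext u y) = |ω.curryLeft (u - y 0) fun i : Fin D => y i.succ - y 0| := by
  rw [sv, AlternatingMap.curryLeft_apply_apply]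
  congr 2
  funext i
  refine Fin.cases ?_ (fun j => ?_) i
  · rfl
  · rfl

theorem curry_ne {D : ℕ} [FiniteDimensional ℝ E] (hE : Module.finrank ℝ E = D + 1)
    {ω : E [⋀^Fin (D + 1)]→ₗ[ℝ] ℝ} (hω : ω ≠ 0) (v : E) (w : Fin D → E) :
    ω.curryLeft v w ≠ 0 ↔ LinearIndependent ℝ w ∧ v ∉ Submodule.span ℝ (Set.range w) := by
  rw [AlternatingMap.curryLeft_apply_apply, form_ne_zero hE hω]
  exact linearIndependent_finCons

theorem block {D : ℕ} {C : ℝ} (hC : Claim D C) [FiniteDimensional ℝ E]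
    (hE : Module.finrank ℝ E = D + 1) {ω : E [⋀^Fin (D + 1)]→ₗ[ℝ] ℝ} (hω : ω ≠ 0)
    (B T : Finset E) (u : E) (huT : u ∈ T) (hBT : B ⊆ T) (hT : ∀ P ∈ T, P = u ∨ P ∈ B)
    {a M : ℝ} (ha : 0 ≤ a)
    (h1 : ∀ x : Fin (D + 1 + 1) → E, (∀ i, x i ∈ T) → sv ω x = 0 ∨ a ≤ sv ω x)
    (h2 : ∀ x : Fin (D + 1 + 1) → E, (∀ i, x i ∈ T) → sv ω x ≤ M)
    (h3 : ∀ x : Fin (D + 1 + 1) → E, (∀ i, x i ∈ B) → sv ω x = 0)
    (h4 : ∃ x : Fin (D + 1 + 1) → E, (∀ i, x i ∈ T) ∧ sv ω x ≠ 0) :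
    (B.card : ℝ) * a ≤ C * M := by
  obtain ⟨x, hxT, hx0⟩ := h4
  have hxi := (sv_ne_zero hE hω x).1 hx0
  obtain ⟨l, hl⟩ : ∃ l, x l = u := by
    by_contra hc
    push Not at hc
    refine hx0 (h3 x fun i => ?_)
    rcases hT _ (hxT i) with h | h
    · exact absurd h (hc i)
    · exact h
  -- put `u` in place one
  obtain ⟨z, hz⟩ : ∃ z : Fin (D + 1 + 1) → E, z = x ∘ Equiv.swap l 1 := ⟨_, rfl⟩
  have hzi : AffineIndependent ℝ z := by
    rw [hz]
    exact hxi.comp_embedding (Equiv.swap l 1).toEmbedding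
  have hz1 : z 1 = u := by
    rw [hz, Function.comp_apply, Equiv.swap_apply_right, hl]
  have hzB : ∀ i, i ≠ 1 → z i ∈ B := by
    intro i hi
    have h5 : z i ∈ T := by
      rw [hz]
      exact hxT _
    rcases hT _ h5 with h | h
    · exact absurd (hzi.injective (h.trans hz1.symm)) hi
    · exact h
  obtain ⟨b, hb⟩ : ∃ b : Fin (D + 1) → E, b = Fin.cons (z 0) fun j : Fin D => z j.succ.succ :=
    ⟨_, rfl⟩
  have hb0 : b 0 = z 0 := by rw [hb]; rfl
  have hbs : ∀ j : Fin D, b j.succ = z j.succ.succ := fun j => by rw [hb]; rfl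
  have hbB : ∀ i, b i ∈ B := by
    intro i
    refine Fin.cases ?_ (fun j => ?_) i
    · rw [hb0]
      exact hzB 0 (by intro h; exact absurd (congrArg Fin.val h) (by simp))
    · rw [hbs]
      exact hzB _ (by intro h; exact absurd (congrArg Fin.val h) (by simp))
  have hze : z = ext u b := by
    funext i
    refine Fin.cases ?_ (fun j => ?_) i
    · exact hb0.symm
    · refine Fin.cases ?_ (fun k => ?_) j
      · exact hz1
      · exact (hbs k).symm
  have hne : sv ω (ext u b) ≠ 0 := by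
    rw [← hze]
    exact (sv_ne_zero hE hω z).2 hzi
  have hne2 : ω.curryLeft (u - b 0) (fun i : Fin D => b i.succ - b 0) ≠ 0 := by
    rw [sv_ext] at hne
    exact abs_ne_zero.1 hne
  obtain ⟨hw, -⟩ := (curry_ne hE hω _ _).1 hne2
  obtain ⟨W, hW⟩ : ∃ W : Submodule ℝ E,
      W = Submodule.span ℝ (Set.range fun i : Fin D => b i.succ - b 0) := ⟨_, rfl⟩
  have hfW : Module.finrank ℝ W = D := by
    rw [hW, finrank_span_eq_card hw, Fintype.card_fin]
  have hBW : ∀ P ∈ B, P - b 0 ∈ W := by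
    intro P hP
    by_contra hc
    have h5 : ω.curryLeft (P - b 0) (fun i : Fin D => b i.succ - b 0) ≠ 0 :=
      (curry_ne hE hω _ _).2 ⟨hw, by rw [← hW]; exact hc⟩
    have h6 := h3 (ext P b) (ext_mem hP hbB)
    rw [sv_ext, abs_eq_zero] at h6
    exact h5 h6
  have hbW : ∀ i : Fin D, b i.succ - b 0 ∈ W := fun i => hBW _ (hbB _)
  obtain ⟨ωW, hωW⟩ : ∃ ωW : W [⋀^Fin D]→ₗ[ℝ] ℝ,
      ωW = (ω.curryLeft (u - b 0)).compLinearMap W.subtype := ⟨_, rfl⟩
  have hωW0 : ωW ≠ 0 := by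
    intro h
    apply hne2
    have h5 : ωW (fun i => ⟨b i.succ - b 0, hbW i⟩) = 0 := by
      rw [h]
      rfl
    rw [hωW, AlternatingMap.compLinearMap_apply] at h5
    exact h5
  -- vectors in `W`
  have hzero : ∀ v : E, v ∈ W → ∀ t : Fin D → E, (∀ i, t i ∈ W) → ω.curryLeft v t = 0 := by
    intro v hv t ht
    by_contra hc
    rw [AlternatingMap.curryLeft_apply_apply] at hc
    have h5 : LinearIndependent ℝ (Matrix.vecCons v t) := (form_ne_zero hE hω _).1 hc
    have hmem : ∀ i, Matrix.vecCons v t i ∈ W := by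
      intro i
      refine Fin.cases ?_ (fun j => ?_) i
      · exact hv
      · exact ht j
    have h6 : LinearIndependent ℝ (fun i => (⟨Matrix.vecCons v t i, hmem i⟩ : W)) :=
      LinearIndependent.of_comp W.subtype h5
    have h7 := h6.fintype_card_le_finrank
    rw [hfW, Fintype.card_fin] at h7
    omega
  obtain ⟨S, hS⟩ : ∃ S : Finset W, S = B.attach.map
      ⟨fun P => (⟨P.1 - b 0, hBW P.1 P.2⟩ : W), fun P Q h => by
        have h5 : P.1 - b 0 = Q.1 - b 0 := congrArg Subtype.val h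
        exact Subtype.ext (sub_left_injective h5)⟩ := ⟨_, rfl⟩
  have hScard : S.card = B.card := by
    rw [hS, Finset.card_map, Finset.card_attach]
  have hSm : ∀ P : W, P ∈ S ↔ ∃ Q ∈ B, (P : E) = Q - b 0 := by
    intro P
    rw [hS, Finset.mem_map]
    constructor
    · rintro ⟨Q, _, hQ⟩
      exact ⟨Q.1, Q.2, (congrArg Subtype.val hQ).symm⟩
    · rintro ⟨Q, hQ, hPQ⟩
      exact ⟨⟨Q, hQ⟩, Finset.mem_attach _ _, Subtype.ext hPQ.symm⟩
  -- comparison
  have hcmp : ∀ X : Fin (D + 1) → W, (∀ i, X i ∈ S) → ∃ y : Fin (D + 1) → E,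
      (∀ i, y i ∈ B) ∧ sv ωW X = sv ω (ext u y) := by
    intro X hX
    have h5 : ∀ i, ∃ Q ∈ B, (X i : E) = Q - b 0 := fun i => (hSm _).1 (hX i)
    choose y hyB hy using h5
    refine ⟨y, hyB, ?_⟩
    have h6 : ωW (fun i => X i.succ - X 0) =
        ω.curryLeft (u - b 0) (fun i : Fin D => y i.succ - y 0) := by
      rw [hωW, AlternatingMap.compLinearMap_apply]
      congr 1
      funext i
      rw [Submodule.subtype_apply, Submodule.coe_sub, hy, hy]
      abel
    have h7 : ω.curryLeft (u - b 0) (fun i : Fin D => y i.succ - y 0) =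
        ω.curryLeft (u - y 0) (fun i : Fin D => y i.succ - y 0) := by
      have h8 : u - b 0 = (u - y 0) + (y 0 - b 0) := by abel
      rw [h8, map_add, AlternatingMap.add_apply, hzero (y 0 - b 0) (hBW _ (hyB 0)), add_zero]
      intro i
      have h9 : y i.succ - y 0 = (y i.succ - b 0) - (y 0 - b 0) := by abel
      rw [h9]
      exact W.sub_mem (hBW _ (hyB _)) (hBW _ (hyB _))
    rw [sv, h6, h7, sv_ext]
  have key := hC W hfW ωW hωW0 S a M ha (fun X hX => by
    obtain ⟨y, hy, hs⟩ := hcmp X hX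
    rw [hs]
    exact h1 _ (ext_mem huT fun i => hBT (hy i))) (fun X hX => by
    obtain ⟨y, hy, hs⟩ := hcmp X hX
    rw [hs]
    exact h2 _ (ext_mem huT fun i => hBT (hy i))) ⟨fun i => ⟨b i - b 0, hBW _ (hbB i)⟩, fun i =>
      (hSm _).2 ⟨b i, hbB i, rfl⟩, by
      rw [sv, abs_ne_zero, hωW, AlternatingMap.compLinearMap_apply]
      have h5 : (fun i : Fin D => W.subtype
          ((⟨b i.succ - b 0, hBW _ (hbB i.succ)⟩ : W) - ⟨b 0 - b 0, hBW _ (hbB 0)⟩)) =
          fun i : Fin D => b i.succ - b 0 := by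
        funext i
        rw [Submodule.subtype_apply, Submodule.coe_sub]
        simp
      intro h6
      apply hne2
      rw [← h5]
      exact h6⟩
  rw [hScard] at key
  exact key

end

end Pool.Agent.Lib.H49V
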