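import Mathlib

/-!
# H49V: combinatorics of the blocks
-/

set_option autoImplicit false

namespace Pool.Agent.Lib.H49V

/-- Cutting a sequence into blocks. -/
theorem chain {n : ℕ} {y : ℕ → ℝ} {a κ : ℝ} (ha : 0 ≤ a) (hκ : 0 ≤ κ) (Sp : ℕ → ℕ → Prop)
    (mono : ∀ i j i' j', Sp i j → i' ≤ i → j ≤ j' → Sp i' j')
    (one : ∀ i, ¬ Sp i (i + 1)) (h0 : Sp 0 n)
    (fwd : ∀ i j, i < j → j < n → ¬ Sp i j → Sp i (j + 1) → ((j : ℝ) - i) * a ≤ κ * (y j - y i))
    (bwd : ∀ i, i + 1 < n → ¬ Sp (i + 1) n → Sp i n →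
      ((n : ℝ) - (i + 1)) * a ≤ κ * (y (n - 1) - y i))
    (hy : ∀ i, i < n → |y i| ≤ 1) : (n : ℝ) * a ≤ 4 * κ := by
  classical
  have hn : 0 < n := by
    rcases Nat.eq_zero_or_pos n with h | h
    · subst h
      exact absurd (mono 0 0 0 1 h0 le_rfl (by omega)) (one 0)
    · exact h
  let P : ℕ → Prop := fun i => i < n ∧ (i : ℝ) * a ≤ κ * (y i - y 0)
  have hP0 : P 0 := ⟨hn, by simp⟩
  have hPi : P (Nat.findGreatest P n) := Nat.findGreatest_spec (Nat.zero_le n) hP0
  generalize hi : Nat.findGreatest P n = i at hPi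
  have hnS : ¬ Sp i n := by
    intro hS
    have hex : ∃ m, Sp i m := ⟨n, hS⟩
    have h1 : Sp i (Nat.find hex) := Nat.find_spec hex
    have h2 : Nat.find hex ≤ n := Nat.find_min' hex hS
    have h3 : ∀ m, m < Nat.find hex → ¬ Sp i m := fun m hm => Nat.find_min hex hm
    generalize Nat.find hex = m0 at h1 h2 h3
    have h4 : i + 1 < m0 := by
      by_contra hc
      exact one i (mono i m0 i (i + 1) h1 le_rfl (by omega))
    obtain ⟨j, rfl⟩ : ∃ j, m0 = j + 1 := ⟨m0 - 1, by omega⟩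
    have h5 := fwd i j (by omega) (by omega) (h3 j (by omega)) h1
    have h6 : P j := ⟨by omega, by
      have := hPi.2
      linarith⟩
    exact Nat.findGreatest_is_greatest (P := P) (n := n) (k := j) (by rw [hi]; omega) (by omega) h6
  have hi0 : i ≠ 0 := by
    rintro rfl
    exact hnS h0
  have hS0 : Sp (Nat.findGreatest (fun k => Sp k n) i) n :=
    Nat.findGreatest_spec (P := fun k => Sp k n) (Nat.zero_le i) h0
  have hle : Nat.findGreatest (fun k => Sp k n) i ≤ i := Nat.findGreatest_le i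
  have hgr : ∀ k, Nat.findGreatest (fun k => Sp k n) i < k → k ≤ i → ¬ Sp k n := fun k h1 h2 =>
    Nat.findGreatest_is_greatest (P := fun k => Sp k n) h1 h2
  generalize Nat.findGreatest (fun k => Sp k n) i = i2 at hS0 hle hgr
  have hlt : i2 < i := lt_of_le_of_ne hle fun h => hnS (h ▸ hS0)
  have hin : i < n := hPi.1
  have h7 := bwd i2 (by omega) (hgr (i2 + 1) (by omega) (by omega)) hS0
  have h8 := abs_le.1 (hy (n - 1) (by omega))
  have h9 := abs_le.1 (hy i2 (by omega))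
  have h10 := abs_le.1 (hy i hin)
  have h11 := abs_le.1 (hy 0 hn)
  have h12 : κ * (y (n - 1) - y i2) ≤ κ * 2 := mul_le_mul_of_nonneg_left (by linarith) hκ
  have h13 : κ * (y i - y 0) ≤ κ * 2 := mul_le_mul_of_nonneg_left (by linarith) hκ
  have h14 : ((n : ℝ) - i) * a ≤ ((n : ℝ) - (i2 + 1)) * a := by
    refine mul_le_mul_of_nonneg_right ?_ ha
    have : ((i2 + 1 : ℕ) : ℝ) ≤ (i : ℝ) := by exact_mod_cast hlt
    push_cast at this
    linarith
  have h15 := hPi.2
  have h16 : (n : ℝ) * a = (i : ℝ) * a + ((n : ℝ) - i) * a := by ring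
  rw [h16]
  linarith

end Pool.Agent.Lib.H49V
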