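import Pool.Agent.Lib.H49V.Meas

/-!
# H49V: configurations
-/

set_option autoImplicit false

namespace Pool.Agent.Lib.H49V

open Finset MeasureTheory

/-- A nondegenerate simplex in a spanning set. -/
theorem exists_indep {d n : ℕ} {X : Fin n → EuclideanSpace ℝ (Fin d)}
    (hX : affineSpan ℝ (Set.range X) = ⊤) :
    ∃ s : Fin (d + 1) ↪ Fin n, AffineIndependent ℝ (X ∘ s) := by
  obtain ⟨t, ht, hts, hti⟩ := exists_affineIndependent ℝ (EuclideanSpace ℝ (Fin d)) (Set.range X)
  have htf : t.Finite := (Set.finite_range X).subset ht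
  have := htf.fintype
  have hr : Set.range ((↑) : t → EuclideanSpace ℝ (Fin d)) = t := Subtype.range_coe
  have hc : Fintype.card t = d + 1 := by
    have h1 := (hti.affineSpan_eq_top_iff_card_eq_finrank_add_one).1 (by rw [hr, hts, hX])
    rw [finrank_E] at h1
    exact h1
  let e : Fin (d + 1) ≃ t := (Fintype.equivFinOfCardEq hc).symm
  have h2 : ∀ i, ∃ k, X k = (e i : EuclideanSpace ℝ (Fin d)) := fun i => ht (e i).2
  choose s hs using h2
  have hinj : Function.Injective s := by
    intro i j hij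
    have h3 : (e i : EuclideanSpace ℝ (Fin d)) = e j := by rw [← hs, ← hs, hij]
    exact e.injective (Subtype.ext h3)
  refine ⟨⟨s, hinj⟩, ?_⟩
  have h4 : (X ∘ (⟨s, hinj⟩ : Fin (d + 1) ↪ Fin n)) =
      ((↑) : t → EuclideanSpace ℝ (Fin d)) ∘ e.toEmbedding := by
    funext i
    exact hs i
  rw [h4]
  exact hti.comp_embedding e.toEmbedding

/-- The inequality for a configuration. -/
theorem conf {d n : ℕ} {X : Fin n → EuclideanSpace ℝ (Fin d)} (hinj : Function.Injective X)
    (hX : affineSpan ℝ (Set.range X) = ⊤) {a M : ℝ} (ha : 0 ≤ a)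
    (h1 : ∀ s : Fin (d + 1) ↪ Fin n, 0 < hv (X ∘ s) → a ≤ hv (X ∘ s))
    (h2 : ∀ s : Fin (d + 1) ↪ Fin n, hv (X ∘ s) ≤ M) :
    (n : ℝ) * a ≤ (∏ k ∈ Finset.Icc 1 d, ((2 : ℝ) ^ (k + 1) * k.factorial)) * M := by
  classical
  obtain ⟨c, hc⟩ : ∃ c, c = hv (std d) := ⟨_, rfl⟩
  have hc0 : 0 < c := hc ▸ std_pos d
  have hvol : ∀ x : Fin (d + 1) → EuclideanSpace ℝ (Fin d), hv x = c * sv (sb d).det x := by
    intro x
    rw [hc]
    exact volume_eq x
  -- simplices with vertices in the range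
  have hemb : ∀ x : Fin (d + 1) → EuclideanSpace ℝ (Fin d),
      (∀ i, x i ∈ Finset.univ.image X) → sv (sb d).det x ≠ 0 →
      ∃ s : Fin (d + 1) ↪ Fin n, x = X ∘ s := by
    intro x hx hne
    have h3 := ((sv_ne_zero (finrank_E d) (det_ne d) x).1 hne).injective
    have h4 : ∀ i, ∃ k, X k = x i := fun i => by
      obtain ⟨k, _, hk⟩ := Finset.mem_image.1 (hx i)
      exact ⟨k, hk⟩
    choose s hs using h4
    refine ⟨⟨s, fun i j hij => h3 (by rw [← hs, ← hs, hij])⟩, ?_⟩
    funext i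
    exact (hs i).symm
  obtain ⟨s0, hs0⟩ := exists_indep hX
  have hs0' : sv (sb d).det (X ∘ s0) ≠ 0 := (sv_ne_zero (finrank_E d) (det_ne d) _).2 hs0
  have hM : 0 ≤ M / c := by
    refine div_nonneg (le_trans ?_ (h2 s0)) hc0.le
    rw [hvol]
    exact mul_nonneg hc0.le (sv_nonneg _ _)
  have key := claim_all d (EuclideanSpace ℝ (Fin d)) (finrank_E d) (sb d).det (det_ne d)
    (Finset.univ.image X) (a / c) (M / c) (div_nonneg ha hc0.le) (fun x hx => by
      by_cases h0 : sv (sb d).det x = 0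
      · exact Or.inl h0
      · right
        obtain ⟨s, rfl⟩ := hemb x hx h0
        have h3 := h1 s (by
          rw [hvol]
          exact mul_pos hc0 (lt_of_le_of_ne (sv_nonneg _ _) (Ne.symm h0)))
        rw [hvol] at h3
        rw [div_le_iff₀ hc0]
        linarith) (fun x hx => by
      by_cases h0 : sv (sb d).det x = 0
      · rw [h0]
        exact hM
      · obtain ⟨s, rfl⟩ := hemb x hx h0
        have h3 := h2 s
        rw [hvol] at h3
        rw [le_div_iff₀ hc0]
        linarith) ⟨X ∘ s0, fun i => Finset.mem_image_of_mem X (Finset.mem_univ _), hs0'⟩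
  rw [Finset.card_image_of_injective _ hinj, Finset.card_univ, Fintype.card_fin] at key
  have h5 := mul_le_mul_of_nonneg_right key hc0.le
  have h6 : (n : ℝ) * (a / c) * c = n * a := by
    field_simp
  have h7 : (∏ k ∈ Finset.Icc 1 d, ((2 : ℝ) ^ (k + 1) * k.factorial)) * (M / c) * c =
      (∏ k ∈ Finset.Icc 1 d, ((2 : ℝ) ^ (k + 1) * k.factorial)) * M := by
    rw [mul_assoc, div_mul_cancel₀ _ hc0.ne']
  rw [h6, h7] at h5
  exact h5

/-- Configurations exist. -/
theorem exists_conf {d n : ℕ} (hd : 1 ≤ d) (hn : d + 1 ≤ n) :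
    ∃ X : Fin n → EuclideanSpace ℝ (Fin d), Function.Injective X ∧
      affineSpan ℝ (Set.range X) = ⊤ := by
  obtain ⟨m, rfl⟩ : ∃ m, d = m + 1 := ⟨d - 1, by omega⟩
  obtain ⟨v, hvdef⟩ : ∃ v : EuclideanSpace ℝ (Fin (m + 1)), v = sb (m + 1) 0 := ⟨_, rfl⟩
  have hv0 : (sb (m + 1)).coord 0 v = 1 := by
    rw [hvdef, Module.Basis.coord_apply, Module.Basis.repr_self, Finsupp.single_eq_same]
  have hstd : ∀ k : Fin (m + 1 + 1), (sb (m + 1)).coord 0 (std (m + 1) k) ≤ 1 := by
    intro k
    refine Fin.cases ?_ (fun j => ?_) k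
    · have h2 : std (m + 1) 0 = 0 := rfl
      rw [h2, map_zero]
      exact zero_le_one
    · have h2 : std (m + 1) j.succ = sb (m + 1) j := rfl
      rw [h2, Module.Basis.coord_apply, Module.Basis.repr_self]
      by_cases hj : j = 0
      · rw [hj, Finsupp.single_eq_same]
      · rw [Finsupp.single_eq_of_ne (fun h => hj h.symm)]
        exact zero_le_one
  refine ⟨fun i => if h : i.1 < m + 1 + 1 then std (m + 1) ⟨i.1, h⟩ else (i.1 : ℝ) • v, ?_, ?_⟩
  · intro i j hij
    have hbig : ∀ k : ℕ, ¬ k < m + 1 + 1 → (1 : ℝ) < (sb (m + 1)).coord 0 ((k : ℝ) • v) := by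
      intro k hk
      rw [map_smul, hv0, smul_eq_mul, mul_one]
      have : (2 : ℕ) ≤ k := by omega
      have h3 : ((2 : ℕ) : ℝ) ≤ (k : ℝ) := by exact_mod_cast this
      push_cast at h3
      linarith
    by_cases hi : i.1 < m + 1 + 1
    · by_cases hj : j.1 < m + 1 + 1
      · simp only [hi, hj, dif_pos] at hij
        have h3 := (std_indep (m + 1)).injective hij
        exact Fin.ext (Fin.mk.inj h3)
      · simp only [hi, hj, dif_pos, dif_neg, not_false_eq_true] at hij
        have h3 := hbig j.1 hj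
        rw [← hij] at h3
        exact absurd (hstd _) (not_le.2 h3)
    · by_cases hj : j.1 < m + 1 + 1
      · simp only [hi, hj, dif_pos, dif_neg, not_false_eq_true] at hij
        have h3 := hbig i.1 hi
        rw [hij] at h3
        exact absurd (hstd _) (not_le.2 h3)
      · simp only [hi, hj, dif_neg, not_false_eq_true] at hij
        have h3 := congrArg ((sb (m + 1)).coord 0) hij
        rw [map_smul, map_smul, hv0, smul_eq_mul, smul_eq_mul, mul_one, mul_one] at h3
        exact Fin.ext (by exact_mod_cast h3)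
  · have h3 : Set.range (std (m + 1)) ⊆ Set.range (fun i : Fin n =>
        if h : i.1 < m + 1 + 1 then std (m + 1) ⟨i.1, h⟩ else (i.1 : ℝ) • v) := by
      rintro _ ⟨k, rfl⟩
      refine ⟨⟨k.1, by omega⟩, ?_⟩
      simp only [k.2, dif_pos]
    have h4 := affineSpan_mono ℝ h3
    rw [std_span] at h4
    exact top_le_iff.1 h4

end Pool.Agent.Lib.H49V
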