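import Pool.Agent.Lib.H49V.Chain
import Pool.Agent.Lib.H49V.Block

/-!
# H49V: the inequality in all dimensions
-/

set_option autoImplicit false
set_option linter.unusedSectionVars false

namespace Pool.Agent.Lib.H49V

open Finset

theorem claim_zero : Claim 0 1 := by
  intro E _ _ _ hE ω hω S a M ha h1 h2 h3
  obtain ⟨x, hx, hx0⟩ := h3
  have hsub : Subsingleton E := by
    rw [Module.finrank_zero_iff] at hE
    exact hE
  have hc : S.card ≤ 1 := Finset.card_le_one.2 fun a _ b _ => Subsingleton.elim a b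
  have h4 : a ≤ sv ω x := (h1 x hx).resolve_left hx0
  have h5 := h2 x hx
  have h6 : (S.card : ℝ) ≤ 1 := by exact_mod_cast hc
  nlinarith

theorem claim_succ {D : ℕ} {C : ℝ} (hC0 : 0 ≤ C) (hC : Claim D C) :
    Claim (D + 1) (2 ^ (D + 2) * (D + 1).factorial * C) := by
  intro E _ _ _ hE ω hω S a M ha h1 h2 h3
  classical
  obtain ⟨x3, hx3, hx30⟩ := h3
  -- a maximal simplex
  have : Nonempty (Fin (D + 1 + 1) → S) := ⟨fun i => ⟨x3 i, hx3 i⟩⟩
  obtain ⟨X0, hX0⟩ := Finite.exists_max fun x : Fin (D + 1 + 1) → S => sv ω fun i => (x i : E)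
  obtain ⟨x0, hx0⟩ : ∃ x0 : Fin (D + 1 + 1) → E, x0 = fun i => (X0 i : E) := ⟨_, rfl⟩
  have hx0S : ∀ i, x0 i ∈ S := fun i => by rw [hx0]; exact (X0 i).2
  have hmax : ∀ x : Fin (D + 1 + 1) → E, (∀ i, x i ∈ S) → sv ω x ≤ sv ω x0 := by
    intro x hx
    rw [hx0]
    exact hX0 fun i => ⟨x i, hx i⟩
  have hpos : 0 < sv ω x0 :=
    lt_of_lt_of_le (lt_of_le_of_ne (sv_nonneg _ _) (Ne.symm hx30)) (hmax x3 hx3)
  have hM : sv ω x0 ≤ M := h2 x0 hx0S
  -- the basis
  have hli : LinearIndependent ℝ (fun i : Fin (D + 1) => x0 i.succ - x0 0) :=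
    (form_ne_zero hE hω _).1 (abs_ne_zero.1 hpos.ne')
  obtain ⟨b, hb⟩ : ∃ b : Module.Basis (Fin (D + 1)) ℝ E, ∀ i, b i = x0 i.succ - x0 0 := by
    refine ⟨Module.Basis.mk hli
      (hli.span_eq_top_of_card_eq_finrank' (by rw [hE, Fintype.card_fin])).ge, fun i => ?_⟩
    rw [Module.Basis.mk_apply]
  have hcoord : ∀ P ∈ S, ∀ i, |b.repr (P - x0 0) i| ≤ 1 := by
    intro P hP i
    refine coord_le x0 b hb hpos P i (hmax _ fun j => ?_)
    by_cases hj : j = i.succ
    · subst hj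
      rw [Function.update_self]
      exact hP
    · rw [Function.update_of_ne hj]
      exact hx0S j
  obtain ⟨y, hy⟩ : ∃ y : E → ℝ, y = fun P => b.repr (P - x0 0) 0 := ⟨_, rfl⟩
  -- sorting
  obtain ⟨n, hn⟩ : ∃ n, S.card = n := ⟨_, rfl⟩
  rw [hn]
  obtain ⟨p, hpinj, hpS, hpsurj, hpmono⟩ : ∃ p : Fin n → E, Function.Injective p ∧
      (∀ i, p i ∈ S) ∧ (∀ P ∈ S, ∃ i, p i = P) ∧ Monotone fun i => y (p i) := by
    subst hn
    let e : Fin S.card ≃ S := S.equivFin.symm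
    let g : Fin S.card → ℝ := fun i => y (e i)
    refine ⟨fun i => (e (Tuple.sort g i) : E), ?_, ?_, ?_, ?_⟩
    · intro i j hij
      exact (Tuple.sort g).injective (e.injective (Subtype.ext hij))
    · intro i
      exact (e _).2
    · intro P hP
      refine ⟨(Tuple.sort g).symm (e.symm ⟨P, hP⟩), ?_⟩
      simp
    · exact Tuple.monotone_sort g
  obtain ⟨q, hq⟩ : ∃ q : ℕ → E, ∀ k (h : k < n), q k = p ⟨k, h⟩ :=
    ⟨fun k => if h : k < n then p ⟨k, h⟩ else x0 0, fun k h => dif_pos h⟩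
  have hqS : ∀ k, k < n → q k ∈ S := fun k hk => by rw [hq k hk]; exact hpS _
  have hqinj : ∀ k l, k < n → l < n → q k = q l → k = l := by
    intro k l hk hl h
    rw [hq k hk, hq l hl] at h
    exact congrArg Fin.val (hpinj h)
  have hqy : ∀ k l, k ≤ l → l < n → y (q k) ≤ y (q l) := by
    intro k l hkl hl
    rw [hq k (by omega), hq l hl]
    exact hpmono hkl
  obtain ⟨T, hT⟩ : ∃ T : ℕ → ℕ → Finset E, ∀ i j P, P ∈ T i j ↔ ∃ k, i ≤ k ∧ k < j ∧ q k = P := by
    refine ⟨fun i j => (Finset.Ico i j).image q, fun i j P => ?_⟩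
    rw [Finset.mem_image]
    constructor
    · rintro ⟨k, hk, hkP⟩
      exact ⟨k, (Finset.mem_Ico.1 hk).1, (Finset.mem_Ico.1 hk).2, hkP⟩
    · rintro ⟨k, hk1, hk2, hkP⟩
      exact ⟨k, Finset.mem_Ico.2 ⟨hk1, hk2⟩, hkP⟩
  have hTcard : ∀ i j, i ≤ j → j ≤ n → ((T i j).card : ℝ) = (j : ℝ) - i := by
    intro i j hij hj
    have h4 : T i j = (Finset.Ico i j).image q := by
      ext P
      rw [hT, Finset.mem_image]
      constructor
      · rintro ⟨k, hk1, hk2, hkP⟩
        exact ⟨k, Finset.mem_Ico.2 ⟨hk1, hk2⟩, hkP⟩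
      · rintro ⟨k, hk, hkP⟩
        exact ⟨k, (Finset.mem_Ico.1 hk).1, (Finset.mem_Ico.1 hk).2, hkP⟩
    rw [h4, Finset.card_image_of_injOn, Nat.card_Ico, Nat.cast_sub hij]
    intro k hk l hl h
    rw [Finset.mem_coe, Finset.mem_Ico] at hk hl
    exact hqinj k l (by omega) (by omega) h
  have hTS : ∀ i j, j ≤ n → ∀ P ∈ T i j, P ∈ S := by
    intro i j hj P hP
    obtain ⟨k, hk1, hk2, rfl⟩ := (hT _ _ _).1 hP
    exact hqS k (by omega)
  have hTy : ∀ i j, i ≤ j → j < n → ∀ P ∈ T i (j + 1), y (q i) ≤ y P ∧ y P ≤ y (q j) := by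
    intro i j hij hj P hP
    obtain ⟨k, hk1, hk2, rfl⟩ := (hT _ _ _).1 hP
    exact ⟨hqy i k hk1 (by omega), hqy k j (by omega) hj⟩
  -- the volume in a strip
  have hstrip : ∀ i j, i ≤ j → j < n → ∀ x : Fin (D + 1 + 1) → E, (∀ l, x l ∈ T i (j + 1)) →
      sv ω x ≤ (D + 1).factorial * 2 ^ D * sv ω x0 * (y (q j) - y (q i)) := by
    intro i j hij hj x hx
    refine strip_le x0 b hb x (fun k l => hcoord _ (hTS i (j + 1) hj _ (hx k)) l) fun k => ?_
    have h4 := hTy i j hij hj _ (hx k)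
    have h5 := hTy i j hij hj _ (hx 0)
    rw [hy] at h4 h5 ⊢
    rw [abs_le]
    constructor <;> linarith [h4.1, h4.2, h5.1, h5.2]
  have hκ0 : 0 ≤ C * ((D + 1).factorial * 2 ^ D * sv ω x0) := by positivity
  have main := chain (n := n) (y := fun k => y (q k)) (a := a)
    (κ := C * ((D + 1).factorial * 2 ^ D * sv ω x0)) ha hκ0
    (fun i j => ∃ x : Fin (D + 1 + 1) → E, (∀ l, x l ∈ T i j) ∧ sv ω x ≠ 0) (by
      rintro i j i' j' ⟨x, hx, hx'⟩ hi hj
      refine ⟨x, fun l => ?_, hx'⟩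
      obtain ⟨k, hk1, hk2, hk3⟩ := (hT _ _ _).1 (hx l)
      exact (hT _ _ _).2 ⟨k, by omega, by omega, hk3⟩) (by
      rintro i ⟨x, hx, hx'⟩
      have h4 := ((sv_ne_zero hE hω x).1 hx').injective
      obtain ⟨k, hk1, hk2, hk3⟩ := (hT _ _ _).1 (hx 0)
      obtain ⟨l, hl1, hl2, hl3⟩ := (hT _ _ _).1 (hx 1)
      have h5 : k = l := by omega
      have h6 : (0 : Fin (D + 1 + 1)) = 1 := h4 (by rw [← hk3, ← hl3, h5])
      exact absurd (congrArg Fin.val h6) (by simp)) (by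
      refine ⟨x0, fun l => ?_, hpos.ne'⟩
      obtain ⟨k, hk⟩ := hpsurj _ (hx0S l)
      exact (hT _ _ _).2 ⟨k.1, Nat.zero_le _, k.2, by rw [hq k.1 k.2]; exact hk⟩) (by
      intro i j hij hj hno hyes
      have h4 := block hC hE hω (T i j) (T i (j + 1)) (q j) ((hT _ _ _).2 ⟨j, by omega, by omega,
        rfl⟩) (fun P hP => by
          obtain ⟨k, hk1, hk2, hk3⟩ := (hT _ _ _).1 hP
          exact (hT _ _ _).2 ⟨k, hk1, by omega, hk3⟩) (fun P hP => by
          obtain ⟨k, hk1, hk2, hk3⟩ := (hT _ _ _).1 hP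
          by_cases hkj : k = j
          · left
            rw [← hk3, hkj]
          · right
            exact (hT _ _ _).2 ⟨k, hk1, by omega, hk3⟩) ha
        (fun x hx => h1 x fun l => hTS _ _ (by omega) _ (hx l)) (hstrip i j (by omega) hj)
        (fun x hx => by
          by_contra hc
          exact hno ⟨x, hx, hc⟩) hyes
      rw [hTcard i j (by omega) (by omega)] at h4
      refine le_trans h4 (le_of_eq ?_)
      ring) (by
      intro i hi hno hyes
      obtain ⟨m, rfl⟩ : ∃ m, n = m + 1 := ⟨n - 1, by omega⟩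
      have h4 := block hC hE hω (T (i + 1) (m + 1)) (T i (m + 1)) (q i)
        ((hT _ _ _).2 ⟨i, le_rfl, by omega, rfl⟩) (fun P hP => by
          obtain ⟨k, hk1, hk2, hk3⟩ := (hT _ _ _).1 hP
          exact (hT _ _ _).2 ⟨k, by omega, by omega, hk3⟩) (fun P hP => by
          obtain ⟨k, hk1, hk2, hk3⟩ := (hT _ _ _).1 hP
          by_cases hkj : k = i
          · left
            rw [← hk3, hkj]
          · right
            exact (hT _ _ _).2 ⟨k, by omega, by omega, hk3⟩) ha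
        (fun x hx => h1 x fun l => hTS _ _ le_rfl _ (hx l)) (hstrip i m (by omega) (by omega))
        (fun x hx => by
          by_contra hc
          exact hno ⟨x, hx, hc⟩) hyes
      rw [hTcard (i + 1) (m + 1) (by omega) le_rfl] at h4
      have h5 : ((m + 1 : ℕ) : ℝ) - (((i : ℝ)) + 1) = ((m + 1 : ℕ) : ℝ) - ((i + 1 : ℕ) : ℝ) := by
        push_cast
        ring
      rw [h5, Nat.add_sub_cancel]
      refine le_trans h4 (le_of_eq ?_)
      ring) (by
      intro i hi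
      have := hcoord _ (hqS i hi) 0
      rw [hy]
      exact this)
  refine le_trans main ?_
  have h4 : 4 * (C * ((D + 1).factorial * 2 ^ D * sv ω x0)) =
      2 ^ (D + 2) * (D + 1).factorial * C * sv ω x0 := by ring
  rw [h4]
  exact mul_le_mul_of_nonneg_left hM (by positivity)

/-- The constant. -/
theorem claim_all (D : ℕ) :
    Claim D (∏ k ∈ Finset.Icc 1 D, ((2 : ℝ) ^ (k + 1) * k.factorial)) := by
  induction D with
  | zero =>
    rw [show Finset.Icc 1 0 = (∅ : Finset ℕ) from rfl, Finset.prod_empty]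
    exact claim_zero
  | succ D ih =>
    have h := claim_succ (Finset.prod_nonneg fun k _ => by positivity) ih
    have h2 : (∏ k ∈ Finset.Icc 1 (D + 1), ((2 : ℝ) ^ (k + 1) * k.factorial)) =
        2 ^ (D + 2) * (D + 1).factorial * ∏ k ∈ Finset.Icc 1 D, ((2 : ℝ) ^ (k + 1) * k.factorial) := by
      rw [Finset.prod_Icc_succ_top (by omega), mul_comm]
    rw [h2]
    exact h

end Pool.Agent.Lib.H49V
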