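import Pool.Agent.Lib.H49V.Core

/-!
# H49V: volumes of simplices
-/

set_option autoImplicit false

namespace Pool.Agent.Lib.H49V

open Finset MeasureTheory

/-- The volume of the simplex with vertices `x 0, ..., x d`. -/
noncomputable def hv {d : ℕ} (x : Fin (d + 1) → EuclideanSpace ℝ (Fin d)) : ℝ :=
  (volume (convexHull ℝ (Set.range x))).toReal

/-- The standard basis. -/
noncomputable abbrev sb (d : ℕ) : Module.Basis (Fin d) ℝ (EuclideanSpace ℝ (Fin d)) :=
  (EuclideanSpace.basisFun (Fin d) ℝ).toBasis

/-- The standard simplex. -/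
noncomputable def std (d : ℕ) : Fin (d + 1) → EuclideanSpace ℝ (Fin d) := Fin.cons 0 (sb d)

theorem sv_std (d : ℕ) : sv (sb d).det (std d) = 1 := by
  have h : (fun i : Fin d => std d i.succ - std d 0) = sb d := by
    funext i
    have h1 : std d i.succ = sb d i := rfl
    have h2 : std d 0 = 0 := rfl
    rw [h1, h2, sub_zero]
  rw [sv, h, (sb d).det_self, abs_one]

theorem det_ne (d : ℕ) : (sb d).det ≠ 0 := by
  intro h
  have := sv_std d
  rw [h, sv] at this
  simp at this

theorem finrank_E (d : ℕ) : Module.finrank ℝ (EuclideanSpace ℝ (Fin d)) = d :=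
  finrank_euclideanSpace_fin

theorem std_indep (d : ℕ) : AffineIndependent ℝ (std d) :=
  (sv_ne_zero (finrank_E d) (det_ne d) _).1 (by rw [sv_std]; exact one_ne_zero)

theorem std_span (d : ℕ) : affineSpan ℝ (Set.range (std d)) = ⊤ := by
  rw [(std_indep d).affineSpan_eq_top_iff_card_eq_finrank_add_one, finrank_E, Fintype.card_fin]

theorem std_pos (d : ℕ) : 0 < hv (std d) := by
  refine ENNReal.toReal_pos ?_ ?_
  · refine (Measure.measure_pos_of_nonempty_interior _ ?_).ne'
    rw [interior_convexHull_nonempty_iff_affineSpan_eq_top]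
    exact std_span d
  · exact ((Set.finite_range (std d)).isCompact_convexHull (𝕜 := ℝ)).measure_lt_top.ne

theorem volume_eq {d : ℕ} (x : Fin (d + 1) → EuclideanSpace ℝ (Fin d)) :
    hv x = hv (std d) * sv (sb d).det x := by
  obtain ⟨L, hL⟩ : ∃ L : EuclideanSpace ℝ (Fin d) →ₗ[ℝ] EuclideanSpace ℝ (Fin d),
      L = (sb d).constr ℝ fun i => x i.succ - x 0 := ⟨_, rfl⟩
  have hLb : ∀ i, L (sb d i) = x i.succ - x 0 := fun i => by
    rw [hL]
    exact (sb d).constr_basis ℝ _ i
  have hdet : LinearMap.det L = (sb d).det fun i => x i.succ - x 0 := by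
    have h1 := (sb d).det_comp L (sb d)
    rw [(sb d).det_self, mul_one] at h1
    rw [← h1]
    congr 1
    funext i
    exact hLb i
  obtain ⟨f, hf⟩ : ∃ f : EuclideanSpace ℝ (Fin d) →ᵃ[ℝ] EuclideanSpace ℝ (Fin d),
      f = L.toAffineMap + AffineMap.const ℝ _ (x 0) := ⟨_, rfl⟩
  have hfv : ∀ v, f v = L v + x 0 := fun v => by
    rw [hf]
    rfl
  have hr : Set.range x = f '' Set.range (std d) := by
    rw [← Set.range_comp]
    congr 1
    funext i
    rw [Function.comp_apply, hfv]
    refine Fin.cases ?_ (fun j => ?_) i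
    · have h2 : std d 0 = 0 := rfl
      rw [h2, map_zero, zero_add]
    · have h2 : std d j.succ = sb d j := rfl
      rw [h2, hLb, sub_add_cancel]
  have him : ∀ K : Set (EuclideanSpace ℝ (Fin d)), volume (f '' K) =
      ENNReal.ofReal |LinearMap.det L| * volume K := by
    intro K
    have h3 : f '' K = (fun v => v + x 0) '' (L '' K) := by
      rw [Set.image_image]
      congr 1
      funext v
      exact hfv v
    rw [h3, Set.image_add_right, measure_preimage_add_right, Measure.addHaar_image_linearMap]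
  rw [hv, hr, ← AffineMap.image_convexHull, him, ENNReal.toReal_mul,
    ENNReal.toReal_ofReal (abs_nonneg _), mul_comm, hdet]
  rfl

end Pool.Agent.Lib.H49V
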