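import Pool.Agent.Lib.H49V.Alt

/-!
# H49V: coordinates of a maximal simplex, simplices in a strip
-/

set_option autoImplicit false

namespace Pool.Agent.Lib.H49V

open Finset

variable {E : Type*} [AddCommGroup E] [Module ℝ E]

theorem det_bound {D : ℕ} (A : Matrix (Fin (D + 1)) (Fin (D + 1)) ℝ) {w : ℝ}
    (h2 : ∀ i j, |A i j| ≤ 2) (hw : ∀ j, |A 0 j| ≤ w) :
    |A.det| ≤ (D + 1).factorial * 2 ^ D * w := by
  have hw0 : 0 ≤ w := le_trans (abs_nonneg _) (hw 0)
  rw [← Matrix.det_transpose, Matrix.det_apply']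
  refine le_trans (Finset.abs_sum_le_sum_abs _ _) ?_
  have h : ∀ σ ∈ (Finset.univ : Finset (Equiv.Perm (Fin (D + 1)))),
      |((Equiv.Perm.sign σ : ℤ) : ℝ) * ∏ i, A.transpose (σ i) i| ≤ 2 ^ D * w := by
    intro σ _
    have hs : |((Equiv.Perm.sign σ : ℤ) : ℝ)| = 1 := by
      rcases Int.units_eq_one_or (Equiv.Perm.sign σ) with h | h <;> rw [h] <;> simp
    rw [abs_mul, hs, one_mul, Finset.abs_prod, Fin.prod_univ_succ]
    have h1 : |A.transpose (σ 0) 0| ≤ w := by
      rw [Matrix.transpose_apply]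
      exact hw _
    have h3 : ∏ i : Fin D, |A.transpose (σ i.succ) i.succ| ≤ 2 ^ D := by
      calc ∏ i : Fin D, |A.transpose (σ i.succ) i.succ| ≤ ∏ _i : Fin D, (2 : ℝ) := by
            refine Finset.prod_le_prod (fun i _ => abs_nonneg _) fun i _ => ?_
            rw [Matrix.transpose_apply]
            exact h2 _ _
        _ = 2 ^ D := by rw [Finset.prod_const, Finset.card_univ, Fintype.card_fin]
    calc |A.transpose (σ 0) 0| * ∏ i : Fin D, |A.transpose (σ i.succ) i.succ| ≤ w * 2 ^ D :=
          mul_le_mul h1 h3 (Finset.prod_nonneg fun i _ => abs_nonneg _) hw0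
      _ = 2 ^ D * w := mul_comm _ _
  refine le_trans (Finset.sum_le_sum h) ?_
  rw [Finset.sum_const, Finset.card_univ, Fintype.card_perm, Fintype.card_fin, nsmul_eq_mul]
  exact le_of_eq (by ring)

/-- The coordinates of a point with respect to a maximal simplex are at most one. -/
theorem coord_le {D : ℕ} {ω : E [⋀^Fin (D + 1)]→ₗ[ℝ] ℝ} (x0 : Fin (D + 1 + 1) → E)
    (b : Module.Basis (Fin (D + 1)) ℝ E) (hb : ∀ i, b i = x0 i.succ - x0 0)
    (hpos : 0 < sv ω x0) (P : E) (i : Fin (D + 1))
    (hP : sv ω (Function.update x0 i.succ P) ≤ sv ω x0) :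
    |b.repr (P - x0 0) i| ≤ 1 := by
  have hb' : (fun i : Fin (D + 1) => x0 i.succ - x0 0) = b := by
    funext j
    exact (hb j).symm
  have h1 : (fun j : Fin (D + 1) => Function.update x0 i.succ P j.succ -
      Function.update x0 i.succ P 0) = Function.update (b : Fin (D + 1) → E) i (P - x0 0) := by
    funext j
    have h0 : Function.update x0 i.succ P 0 = x0 0 :=
      Function.update_of_ne (Fin.succ_ne_zero i).symm _ _
    rw [h0]
    by_cases hj : j = i
    · subst hj
      rw [Function.update_self, Function.update_self]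
    · rw [Function.update_of_ne hj, Function.update_of_ne (fun h => hj (Fin.succ_injective _ h)),
        hb j]
  have h2 : ω (Function.update (b : Fin (D + 1) → E) i (P - x0 0)) =
      b.repr (P - x0 0) i * ω b := by
    have h3 : ω.toMultilinearMap.toLinearMap (b : Fin (D + 1) → E) i = ω b • b.coord i := by
      refine b.ext fun j => ?_
      rw [LinearMap.smul_apply, Module.Basis.coord_apply, Module.Basis.repr_self]
      change ω (Function.update (b : Fin (D + 1) → E) i (b j)) = _
      by_cases hj : j = i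
      · subst hj
        rw [Function.update_eq_self, Finsupp.single_eq_same, smul_eq_mul, mul_one]
      · rw [Finsupp.single_eq_of_ne (fun h => hj h.symm), smul_zero]
        exact ω.map_update_self b (fun h => hj h.symm)
    have h4 := LinearMap.congr_fun h3 (P - x0 0)
    rw [LinearMap.smul_apply, Module.Basis.coord_apply, smul_eq_mul, mul_comm] at h4
    exact h4
  have h5 : sv ω (Function.update x0 i.succ P) = |b.repr (P - x0 0) i| * sv ω x0 := by
    rw [sv, h1, h2, abs_mul, sv, hb']
  rw [h5] at hP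
  by_contra hc
  push Not at hc
  have := mul_lt_mul_of_pos_right hc hpos
  linarith

/-- A simplex in a strip. -/
theorem strip_le {D : ℕ} {ω : E [⋀^Fin (D + 1)]→ₗ[ℝ] ℝ} (x0 : Fin (D + 1 + 1) → E)
    (b : Module.Basis (Fin (D + 1)) ℝ E) (hb : ∀ i, b i = x0 i.succ - x0 0)
    (x : Fin (D + 1 + 1) → E) (hx : ∀ k i, |b.repr (x k - x0 0) i| ≤ 1) {w : ℝ}
    (hw : ∀ k, |b.repr (x k - x0 0) 0 - b.repr (x 0 - x0 0) 0| ≤ w) :
    sv ω x ≤ (D + 1).factorial * 2 ^ D * sv ω x0 * w := by
  have hb' : (fun i : Fin (D + 1) => x0 i.succ - x0 0) = b := by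
    funext j
    exact (hb j).symm
  have hd : ∀ k i, b.repr (x k - x 0) i = b.repr (x k - x0 0) i - b.repr (x 0 - x0 0) i := by
    intro k i
    rw [← Finsupp.sub_apply, ← map_sub]
    congr 2
    abel
  have h1 : sv ω x = sv ω x0 * |(b.toMatrix fun i => x i.succ - x 0).det| := by
    have h2 : ω (fun i => x i.succ - x 0) = ω b * (b.toMatrix fun i => x i.succ - x 0).det := by
      conv_lhs => rw [ω.eq_smul_basis_det b]
      rfl
    rw [sv, h2, abs_mul, sv, hb']
  have h3 := det_bound (b.toMatrix fun i => x i.succ - x 0) (w := w) (fun i j => by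
    rw [Module.Basis.toMatrix_apply, hd]
    have h4 := abs_le.1 (hx j.succ i)
    have h5 := abs_le.1 (hx 0 i)
    rw [abs_le]
    constructor <;> linarith) (fun j => by
    rw [Module.Basis.toMatrix_apply, hd]
    exact hw _)
  rw [h1]
  calc sv ω x0 * |(b.toMatrix fun i => x i.succ - x 0).det| ≤
      sv ω x0 * ((D + 1).factorial * 2 ^ D * w) := mul_le_mul_of_nonneg_left h3 (sv_nonneg _ _)
    _ = _ := by ring

end Pool.Agent.Lib.H49V
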